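import Pool.Agent.Helper74.BS.St

set_option autoImplicit false

/-! Project BS (MP_26f0da_lc), module AK (helper85 for helper74): correctness of the levels. -/

namespace Pool.Agent.Helper85.BS

open Pool.Agent.Helper73.DC Pool.Agent.Helper74.BS
open Finset
open scoped Classical

theorem sp_ne {D kk : ℕ} {cl : ℕ → ℕ} {rs : ℕ → ℕ → ℕ} {f : ℕ → ℕ} {x : ℕ} (h : f x ≠ 0) :
    SP D kk cl rs f x ≠ 0 := by
  unfold SP
  rw [if_pos h]
  exact h

/-- a derivation with a rank is a derivation -/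
theorem evk_ev {lf cl : ℕ → ℕ} {rs : ℕ → ℕ → ℕ} {TH : ℕ} (wt : ℕ → ℕ) {j x r c : ℕ}
    (h : EvK lf cl rs TH j x r c) : ∃ m n, Ev lf cl rs wt x r m n := by
  induction h with
  | leaf j x r hx => exact ⟨_, _, Ev.leaf x r hx⟩
  | up j x r c _ _ ih => exact ih
  | node j x r1 c1 r2 c2 hx _ _ ih1 ih2 =>
    obtain ⟨m1, n1, h1⟩ := ih1
    obtain ⟨m2, n2, h2⟩ := ih2
    exact ⟨_, _, Ev.node x r1 m1 n1 r2 m2 n2 hx h1 h2⟩

/-- the weights of a level -/
noncomputable def wj (f cl : ℕ → ℕ) (rs : ℕ → ℕ → ℕ) (x : ℕ) : ℕ :=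
  if f x = 0 ∧ f (cl x) ≠ 0 ∧ f (rs x (f (cl x) - 1)) ≠ 0 then 1 else 0

theorem wj_zero {f cl : ℕ → ℕ} {rs : ℕ → ℕ → ℕ} {x : ℕ} (h : f x ≠ 0) : wj f cl rs x = 0 := by
  unfold wj
  rw [if_neg]
  exact fun h' => h h'.1

/-- derivations of nodes where the leaf function is not zero -/
theorem ev_leaf {f cl : ℕ → ℕ} {rs : ℕ → ℕ → ℕ} {wt : ℕ → ℕ} {x r m n : ℕ}
    (h : Ev f cl rs wt x r m n) (hx : f x ≠ 0) : f x = r + 1 ∧ m = wt x := by
  cases h with
  | leaf _ _ h' => exact ⟨h', rfl⟩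
  | node _ _ _ _ _ _ _ h' _ _ => exact absurd h' hx

/-- measure zero means light -/
theorem light {f cl : ℕ → ℕ} {rs : ℕ → ℕ → ℕ} {x r m n : ℕ}
    (h : Ev f cl rs (wj f cl rs) x r m n) : m = 0 → f x ≠ 0 := by
  induction h with
  | leaf x r hx =>
    intro _
    omega
  | node x r1 m1 n1 r2 m2 n2 hx h1 h2 ih1 ih2 =>
    intro hm
    have e1 := ih1 (by omega)
    have e2 := ih2 (by omega)
    have e3 := (ev_leaf h1 e1).1
    have e4 : wj f cl rs x = 1 := by
      unfold wj
      rw [if_pos]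
      refine ⟨hx, e1, ?_⟩
      rw [e3, Nat.add_sub_cancel]
      exact e2
    omega

theorem hAK (hSS : StSS) (hSC : StSC) (hG6 : StG6) : Pool.Agent.Helper74.BS.StAK := by
  intro lf cl rs D kk k TH e0 h2 h4 hTH R c r hcD
  have hA : ∀ (F : ℕ → ℕ) (i x : ℕ), F x ≠ 0 → (SP D kk cl rs)^[i] F x ≠ 0 := by
    intro F i
    induction i with
    | zero => exact fun x hx => hx
    | succ i ih =>
      intro x hx
      rw [Function.iterate_succ_apply']
      exact sp_ne (ih x hx)
  have hB : ∀ (F wt : ℕ → ℕ) (i x ρ : ℕ), (SP D kk cl rs)^[i] F x = ρ + 1 →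
      ∃ m n, Ev F cl rs wt x ρ m n := by
    intro F wt i
    induction i with
    | zero => exact fun x ρ hx => ⟨_, _, Ev.leaf x ρ hx⟩
    | succ i ih =>
      intro x ρ hx
      rw [Function.iterate_succ_apply'] at hx
      exact hSS F cl rs wt _ D kk (hA F i) ih x ρ hx
  -- the value at a node with a derivation
  have hV : ∀ j x r c', EvK lf cl rs TH j x r c' → ∀ i, (SP D kk cl rs)^[i] lf x ≠ 0 →
      (SP D kk cl rs)^[i] lf x = r + 1 := by
    intro j x r c' he i hi
    obtain ⟨ρ, hρ⟩ := Nat.exists_eq_succ_of_ne_zero hi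
    obtain ⟨m, n, he'⟩ := hB lf (fun _ => 0) i x ρ hρ
    obtain ⟨m1, n1, he1⟩ := evk_ev (fun _ => 0) he
    have := (hG6 lf cl rs (fun _ => 0) x ρ m n r m1 n1 he' he1).1
    rw [hρ, this]
  -- the levels between e0 j and e0 (j+1)
  have hC : ∀ (F : ℕ → ℕ) (i x ρ m n : ℕ), x < D → Ev F cl rs (wj F cl rs) x ρ m n → m < k ^ i →
      (SP D kk cl rs)^[i] F x ≠ 0 := by
    intro F i
    induction i with
    | zero =>
      intro x ρ m n _ he hm
      rw [pow_zero] at hm
      exact light he (by omega)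
    | succ i ih =>
      intro x ρ m n hx he hm
      rw [Function.iterate_succ_apply']
      rw [pow_succ'] at hm
      exact hSC F cl rs (wj F cl rs) _ D kk k (k ^ i) (hA F i) (hB F (wj F cl rs) i) h2 h4 ih x ρ m n
        hx he hm
  -- light derivations
  have hP : ∀ j x r c', EvK lf cl rs TH j x r c' → x < D → ∃ m' n',
      Ev ((SP D kk cl rs)^[e0 * j] lf) cl rs (wj ((SP D kk cl rs)^[e0 * j] lf) cl rs) x r m' n' ∧
        m' ≤ c' := by
    intro j x r c' he
    induction he with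
    | leaf j x r hx =>
      intro _
      have e1 : (SP D kk cl rs)^[e0 * j] lf x ≠ 0 := hA lf (e0 * j) x (by omega)
      have e2 := hV j x r 0 (EvK.leaf j x r hx) (e0 * j) e1
      exact ⟨_, _, Ev.leaf x r e2, (wj_zero e1).le⟩
    | up j x r c0 he hc ih =>
      intro hxD
      obtain ⟨m', n', he', hm'⟩ := ih hxD
      have e1 : (SP D kk cl rs)^[e0 * (j + 1)] lf x ≠ 0 := by
        have e3 := hC ((SP D kk cl rs)^[e0 * j] lf) e0 x r m' n' hxD he' (by omega)
        rw [← Function.iterate_add_apply] at e3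
        have e4 : e0 * (j + 1) = e0 + e0 * j := by ring
        rw [e4]
        exact e3
      have e2 := hV (j + 1) x r 0 (EvK.up j x r c0 he hc) (e0 * (j + 1)) e1
      exact ⟨_, _, Ev.leaf x r e2, (wj_zero e1).le⟩
    | node j x r1 c1 r2 c2 hx he1 he2 ih1 ih2 =>
      intro _
      by_cases hf : (SP D kk cl rs)^[e0 * j] lf x = 0
      · obtain ⟨m1, n1, g1, k1⟩ := ih1 (h2 x).1
        obtain ⟨m2, n2, g2, k2⟩ := ih2 ((h2 x).2 r1)
        refine ⟨_, _, Ev.node x r1 m1 n1 r2 m2 n2 hf g1 g2, ?_⟩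
        by_cases hw : (SP D kk cl rs)^[e0 * j] lf x = 0 ∧ (SP D kk cl rs)^[e0 * j] lf (cl x) ≠ 0 ∧
            (SP D kk cl rs)^[e0 * j] lf (rs x ((SP D kk cl rs)^[e0 * j] lf (cl x) - 1)) ≠ 0
        · have e1 := ev_leaf g1 hw.2.1
          have e2 : (SP D kk cl rs)^[e0 * j] lf (rs x r1) ≠ 0 := by
            have := hw.2.2
            rwa [e1.1, Nat.add_sub_cancel] at this
          have e3 := ev_leaf g2 e2
          have e4 := wj_zero (cl := cl) (rs := rs) hw.2.1
          have e5 := wj_zero (cl := cl) (rs := rs) e2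
          have e6 : wj ((SP D kk cl rs)^[e0 * j] lf) cl rs x ≤ 1 := by
            unfold wj
            split_ifs
            all_goals omega
          rw [e1.2, e3.2, e4, e5]
          have := le_max_left 1 (c1 + c2)
          omega
        · have e6 : wj ((SP D kk cl rs)^[e0 * j] lf) cl rs x = 0 := by
            unfold wj
            rw [if_neg hw]
          rw [e6]
          have := le_max_right 1 (c1 + c2)
          omega
      · have e2 := hV j x r2 (max 1 (c1 + c2)) (EvK.node j x r1 c1 r2 c2 hx he1 he2) (e0 * j) hf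
        exact ⟨_, _, Ev.leaf x r2 e2, (wj_zero hf).le.trans (Nat.zero_le _)⟩
  constructor
  · intro he
    obtain ⟨m', n', he', hm'⟩ := hP R c r 0 he hcD
    have hne := light he' (by omega)
    exact hV R c r 0 he (e0 * R) hne
  · intro h
    exact hB lf (fun _ => 0) (e0 * R) c r h

end Pool.Agent.Helper85.BS
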